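import Mathlib

/-! # Representations from the absence of simultaneous approximations (job Z2, S17823)

`repr_of_no_approx`: if no real `t` with `1/(8B) ≤ |t| ≤ 1/2` has all `t x_i` close to integers then
every integer `u`, `|u| ≤ B`, is an integer combination of the `x_i` with small coefficients. -/

open Finset

namespace Pool.Agent.Y350.Z2

/-- `e(t) = exp(2 pi i t)`. -/
noncomputable def E (t : ℝ) : ℂ := Complex.exp (2 * Real.pi * t * Complex.I)

lemma E_add (s t : ℝ) : E (s + t) = E s * E t := by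
  unfold E
  rw [← Complex.exp_add]
  congr 1
  push_cast
  ring

lemma E_zero : E 0 = 1 := by simp [E]

lemma E_ne_zero (t : ℝ) : E t ≠ 0 := Complex.exp_ne_zero _

lemma E_eq_one_iff (t : ℝ) : E t = 1 ↔ ∃ z : ℤ, t = z := by
  unfold E
  rw [Complex.exp_eq_one_iff]
  constructor
  · rintro ⟨n, hn⟩
    refine ⟨n, ?_⟩
    have hpi : (2 * (Real.pi : ℂ) * Complex.I) ≠ 0 := Complex.two_pi_I_ne_zero
    have h1 : (2 * (Real.pi : ℂ) * Complex.I) * (t : ℂ) = (2 * (Real.pi : ℂ) * Complex.I) * (n : ℂ) := by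
      rw [show (2 * (Real.pi : ℂ) * Complex.I) * (t : ℂ) = 2 * (Real.pi : ℂ) * t * Complex.I by ring, hn]
      ring
    have h2 := mul_left_cancel₀ hpi h1
    exact_mod_cast h2
  · rintro ⟨z, rfl⟩
    exact ⟨z, by push_cast; ring⟩

lemma E_norm (t : ℝ) : ‖E t‖ = 1 := by
  unfold E
  have : (2 * (Real.pi : ℂ) * t * Complex.I) = ((2 * Real.pi * t : ℝ) : ℂ) * Complex.I := by
    push_cast; ring
  rw [this, Complex.norm_exp_ofReal_mul_I]

lemma E_sum {α : Type*} (s : Finset α) (f : α → ℝ) : E (∑ i ∈ s, f i) = ∏ i ∈ s, E (f i) := by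
  classical
  induction s using Finset.induction_on with
  | empty => simp [E_zero]
  | insert a s ha ih => rw [sum_insert ha, prod_insert ha, E_add, ih]

lemma E_nat_mul (n : ℕ) (t : ℝ) : E (n * t) = E t ^ n := by
  induction n with
  | zero => simp [E_zero]
  | succ n ih =>
    rw [pow_succ, ← ih, ← E_add]
    congr 1
    push_cast
    ring

lemma E_conj (t : ℝ) : (starRingEnd ℂ) (E t) = E (-t) := by
  unfold E
  rw [← Complex.exp_conj]
  congr 1
  have h2 : (starRingEnd ℂ) 2 = 2 := by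
    have := Complex.conj_ofReal 2
    simpa using this
  simp [h2]

lemma E_re (t : ℝ) : (E t).re = Real.cos (2 * Real.pi * t) := by
  unfold E
  have : (2 * (Real.pi : ℂ) * t * Complex.I) = ((2 * Real.pi * t : ℝ) : ℂ) * Complex.I := by
    push_cast; ring
  rw [this, Complex.exp_ofReal_mul_I_re]

lemma norm_E_sub_one (t : ℝ) : ‖E t - 1‖ = 2 * |Real.sin (Real.pi * t)| := by
  unfold E
  have : (2 * (Real.pi : ℂ) * t * Complex.I) = Complex.I * ((2 * Real.pi * t : ℝ) : ℂ) := by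
    push_cast; ring
  rw [this, Complex.norm_exp_I_mul_ofReal_sub_one, Real.norm_eq_abs, abs_mul, abs_two]
  congr 3
  ring

lemma abs_sin_ge (t : ℝ) {ε : ℝ} (h : ∀ z : ℤ, ε ≤ |t - z|) : 2 * ε ≤ |Real.sin (Real.pi * t)| := by
  set z := round t with hz
  have h1 : |t - z| ≤ 1 / 2 := abs_sub_round t
  have h2 : ε ≤ |t - z| := h z
  have h3 : |Real.sin (Real.pi * t)| = |Real.sin (Real.pi * (t - z))| := by
    have : Real.pi * (t - z) = Real.pi * t - z * Real.pi := by ring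
    rw [this, Real.sin_sub_int_mul_pi, abs_mul]
    simp
  have h4 : |Real.sin (Real.pi * (t - z))| = Real.sin (Real.pi * |t - z|) := by
    have hnn : 0 ≤ Real.sin (Real.pi * |t - z|) := by
      apply Real.sin_nonneg_of_nonneg_of_le_pi
      · positivity
      · nlinarith [Real.pi_pos, abs_nonneg (t - z)]
    rcases abs_cases (t - (z : ℝ)) with ⟨he, _⟩ | ⟨he, _⟩
    · rw [he] at hnn ⊢
      exact abs_of_nonneg hnn
    · rw [he] at hnn ⊢
      rw [mul_neg, Real.sin_neg] at hnn ⊢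
      rw [← abs_neg]
      exact abs_of_nonneg hnn
  rw [h3, h4]
  have h5 := Real.mul_le_sin (x := Real.pi * |t - z|) (by positivity)
    (by nlinarith [Real.pi_pos])
  have h6 : 2 / Real.pi * (Real.pi * |t - z|) = 2 * |t - z| := by
    field_simp
  rw [h6] at h5
  linarith

/-- the Dirichlet kernel. -/
noncomputable def D (m : ℕ) (θ : ℝ) : ℂ := ∑ c : Fin m, E (((c : ℕ) : ℝ) * θ)

lemma D_eq (m : ℕ) (θ : ℝ) : D m θ = ∑ c ∈ range m, E θ ^ c := by
  unfold D
  rw [Finset.sum_range]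
  exact Finset.sum_congr rfl fun c _ => E_nat_mul _ _

lemma D_norm_le (m : ℕ) (θ : ℝ) : ‖D m θ‖ ≤ m := by
  unfold D
  refine (norm_sum_le _ _).trans ?_
  simp [E_norm]

lemma D_norm_le' (m : ℕ) (θ : ℝ) {ε : ℝ} (hε : 0 < ε) (h : ∀ z : ℤ, ε ≤ |θ - z|) :
    ‖D m θ‖ ≤ 1 / (2 * ε) := by
  have h1 : D m θ * (E θ - 1) = E θ ^ m - 1 := by
    rw [D_eq]; exact geom_sum_mul _ _
  have h2 : 4 * ε ≤ ‖E θ - 1‖ := by
    rw [norm_E_sub_one]
    have := abs_sin_ge θ h
    linarith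
  have h3 : ‖E θ ^ m - 1‖ ≤ 2 := by
    refine (norm_sub_le _ _).trans ?_
    rw [norm_pow, E_norm]
    norm_num
  have h4 : ‖D m θ‖ * ‖E θ - 1‖ ≤ 2 := by
    rw [← norm_mul, h1]; exact h3
  have h5 : ‖D m θ‖ * (4 * ε) ≤ 2 :=
    (mul_le_mul_of_nonneg_left h2 (norm_nonneg _)).trans h4
  rw [le_div_iff₀ (by positivity)]
  linarith

lemma D_zero (m : ℕ) : D m 0 = m := by
  unfold D; simp [E_zero]

/-- sum of a nontrivial character over a complete system of residues. -/
lemma sum_E_eq_zero (N : ℕ) (hN : 0 < N) (s : ℕ) (M : ℤ) (hM0 : M ≠ 0) (hM : |(M : ℝ)| < N) :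
    ∑ j ∈ range N, E ((((j : ℝ) - s) / N) * M) = 0 := by
  have hN' : (N : ℝ) ≠ 0 := by positivity
  have h1 : ∀ j ∈ range N, E ((((j : ℝ) - s) / N) * M) = E (-(s : ℝ) / N * M) * E ((M : ℝ) / N) ^ j := by
    intro j _
    rw [← E_nat_mul, ← E_add]
    congr 1
    field_simp
    ring
  rw [Finset.sum_congr rfl h1, ← Finset.mul_sum]
  have h2 : E ((M : ℝ) / N) ≠ 1 := by
    rw [Ne, E_eq_one_iff]
    rintro ⟨z, hz⟩
    have h3 : (M : ℝ) = z * N := by
      field_simp at hz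
      linarith
    have h4 : |(M : ℝ)| = |(z : ℝ)| * N := by
      rw [h3, abs_mul]
      simp
    have h5 : z ≠ 0 := by
      rintro rfl
      apply hM0
      have : (M : ℝ) = 0 := by rw [h3]; simp
      exact_mod_cast this
    have h6 : (1 : ℝ) ≤ |(z : ℝ)| := by
      have : (1 : ℤ) ≤ |z| := Int.one_le_abs h5
      exact_mod_cast this
    have hNpos : (0 : ℝ) < N := by positivity
    nlinarith
  have h3 : (∑ j ∈ range N, E ((M : ℝ) / N) ^ j) * (E ((M : ℝ) / N) - 1) = 0 := by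
    rw [geom_sum_mul, ← E_nat_mul]
    have : E ((N : ℝ) * ((M : ℝ) / N)) = 1 := by
      rw [E_eq_one_iff]
      exact ⟨M, by field_simp⟩
    rw [this, sub_self]
  have h4 : (∑ j ∈ range N, E ((M : ℝ) / N) ^ j) = 0 := by
    rcases mul_eq_zero.mp h3 with h | h
    · exact h
    · exact absurd (sub_eq_zero.mp h) h2
  rw [h4, mul_zero]

/-- sign attached to a boolean -/
def sg (b : Bool) : ℤ := if b then 1 else -1

/-- the expansion of the kernel. -/
lemma kernel_expand {ι : Type*} [Fintype ι] [DecidableEq ι] (x : ι → ℤ) (m r : ℕ) (t : ℝ) :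
    ((∏ i, (‖D m (t * x i)‖ ^ 2) ^ r : ℝ) : ℂ)
      = ∑ f : (ι × Fin r × Bool) → Fin m,
          E (t * ((∑ i, (∑ q : Fin r × Bool, sg q.2 * ((f (i, q) : ℕ) : ℤ)) * x i : ℤ) : ℝ)) := by
  have h1 : ∀ i, (((‖D m (t * x i)‖ ^ 2) ^ r : ℝ) : ℂ)
      = ∏ q : Fin r × Bool, ∑ c : Fin m, E (t * (sg q.2 * ((c : ℕ) : ℤ) * x i : ℤ)) := by
    intro i
    rw [Fintype.prod_prod_type]
    have h2 : ∀ s : Fin r, (∏ b : Bool, ∑ c : Fin m, E (t * (sg b * ((c : ℕ) : ℤ) * x i : ℤ)))
        = ((‖D m (t * x i)‖ ^ 2 : ℝ) : ℂ) := by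
      intro s
      rw [Fintype.prod_bool]
      have h3 : (∑ c : Fin m, E (t * (sg true * ((c : ℕ) : ℤ) * x i : ℤ))) = D m (t * x i) := by
        unfold D
        refine Finset.sum_congr rfl fun c _ => ?_
        congr 1
        simp [sg]
        ring
      have h4 : (∑ c : Fin m, E (t * (sg false * ((c : ℕ) : ℤ) * x i : ℤ)))
          = (starRingEnd ℂ) (D m (t * x i)) := by
        unfold D
        rw [map_sum]
        refine Finset.sum_congr rfl fun c _ => ?_
        rw [E_conj]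
        congr 1
        simp [sg]
        ring
      rw [h3, h4, Complex.mul_conj, Complex.normSq_eq_norm_sq]
    rw [Finset.prod_congr rfl fun s _ => h2 s]
    simp
  have h5 : ((∏ i, (‖D m (t * x i)‖ ^ 2) ^ r : ℝ) : ℂ)
      = ∏ p : ι × Fin r × Bool, ∑ c : Fin m, E (t * (sg p.2.2 * ((c : ℕ) : ℤ) * x p.1 : ℤ)) := by
    rw [Fintype.prod_prod_type, Complex.ofReal_prod]
    exact Finset.prod_congr rfl fun i _ => h1 i
  rw [h5, Finset.prod_univ_sum, Fintype.piFinset_univ]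
  refine Finset.sum_congr rfl fun f _ => ?_
  rw [← E_sum]
  congr 1
  rw [← Finset.mul_sum]
  congr 1
  rw [← Int.cast_sum]
  congr 1
  rw [Fintype.sum_prod_type]
  refine Finset.sum_congr rfl fun i _ => ?_
  rw [Finset.sum_mul]

lemma coef_bound {ι : Type*} (m r : ℕ) (f : (ι × Fin r × Bool) → Fin m) (i : ι) :
    |∑ q : Fin r × Bool, sg q.2 * ((f (i, q) : ℕ) : ℤ)| ≤ r * m := by
  rw [Fintype.sum_prod_type]
  refine (Finset.abs_sum_le_sum_abs _ _).trans ?_
  have h : ∀ s : Fin r, |∑ b : Bool, sg b * ((f (i, s, b) : ℕ) : ℤ)| ≤ m := by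
    intro s
    rw [Fintype.sum_bool]
    simp only [sg]
    have h1 := (f (i, s, true)).2
    have h2 := (f (i, s, false)).2
    rw [abs_le]
    constructor <;> simp <;> omega
  calc ∑ s : Fin r, |∑ b : Bool, sg b * ((f (i, s, b) : ℕ) : ℤ)| ≤ ∑ s : Fin r, (m : ℤ) :=
        Finset.sum_le_sum fun s _ => h s
    _ = r * m := by simp

theorem repr_of_no_approx {ι : Type*} [Fintype ι] (x : ι → ℤ) (B : ℝ) (hB : 1 ≤ B)
    (hx : ∀ i, |(x i : ℝ)| ≤ B) (m r : ℕ) (hm : 1 ≤ m) (hr : 1 ≤ r) (ε : ℝ) (hε : 0 < ε)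
    (hsmall : ((Fintype.card ι * r * m + 1) * B + 1) * (1 / (2 * m * ε)) ^ (2 * r) < 1)
    (h : ∀ t : ℝ, 1 / (8 * B) ≤ |t| → |t| ≤ 1 / 2 → ∃ i, ∀ z : ℤ, ε ≤ |t * x i - z|)
    (u : ℤ) (hu : |(u : ℝ)| ≤ B) :
    ∃ l : ι → ℤ, (∀ i, |l i| ≤ r * m) ∧ ∑ i, l i * x i = u := by
  classical
  by_contra hcon
  push Not at hcon
  set k := Fintype.card ι with hk
  set Y : ℝ := ((k : ℝ) * r * m + 1) * B with hY
  have hY0 : 0 ≤ Y := by positivity
  set N : ℕ := ⌊Y⌋₊ + 1 with hN
  have hNY : Y < N := by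
    rw [hN]; push_cast; exact Nat.lt_floor_add_one Y
  have hNY' : (N : ℝ) ≤ Y + 1 := by
    rw [hN]; push_cast; linarith [Nat.floor_le hY0]
  have hNpos : 0 < N := Nat.succ_pos _
  have hNposR : (0 : ℝ) < N := by exact_mod_cast hNpos
  set s : ℕ := (N - 1) / 2 with hs
  have hsN : s < N := by omega
  set T : ℕ → ℝ := fun j => ((j : ℝ) - s) / N with hT
  have hTabs : ∀ j ∈ range N, |T j| ≤ 1 / 2 := by
    intro j hj
    have hj' : j < N := Finset.mem_range.mp hj
    have h1 : 2 * (j : ℤ) - 2 * s ≤ N := by omega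
    have h2 : 2 * (s : ℤ) - 2 * j ≤ N := by omega
    have h1' : 2 * (j : ℝ) - 2 * s ≤ N := by exact_mod_cast h1
    have h2' : 2 * (s : ℝ) - 2 * j ≤ N := by exact_mod_cast h2
    rw [hT]
    simp only
    rw [abs_div, abs_of_pos hNposR, div_le_iff₀ hNposR, abs_le]
    constructor <;> linarith
  -- the kernel
  set P : ℝ → ℝ := fun t => ∏ i, (‖D m (t * x i)‖ ^ 2) ^ r with hP
  have hzero : ∑ j ∈ range N, E (T j * (-u : ℤ)) * ((P (T j) : ℝ) : ℂ) = 0 := by
    have h1 : ∀ j ∈ range N, E (T j * (-u : ℤ)) * ((P (T j) : ℝ) : ℂ)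
        = ∑ f : (ι × Fin r × Bool) → Fin m,
          E (T j * ((∑ i, (∑ q : Fin r × Bool, sg q.2 * ((f (i, q) : ℕ) : ℤ)) * x i - u : ℤ) : ℝ)) := by
      intro j _
      rw [hP]
      simp only
      rw [kernel_expand, Finset.mul_sum]
      refine Finset.sum_congr rfl fun f _ => ?_
      rw [← E_add]
      congr 1
      push_cast
      ring
    rw [Finset.sum_congr rfl h1, Finset.sum_comm]
    refine Finset.sum_eq_zero fun f _ => ?_
    set l : ι → ℤ := fun i => ∑ q : Fin r × Bool, sg q.2 * ((f (i, q) : ℕ) : ℤ) with hl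
    have hlb : ∀ i, |l i| ≤ r * m := fun i => coef_bound m r f i
    have hne : (∑ i, l i * x i - u : ℤ) ≠ 0 := sub_ne_zero.mpr (hcon l hlb)
    refine sum_E_eq_zero N hNpos s _ hne ?_
    refine lt_of_le_of_lt ?_ hNY
    rw [Int.cast_sub, Int.cast_sum]
    have h2 : |(∑ i, (l i : ℝ) * (x i : ℝ))| ≤ (k : ℝ) * r * m * B := by
      refine (Finset.abs_sum_le_sum_abs _ _).trans ?_
      have h3 : ∀ i ∈ (Finset.univ : Finset ι), |(l i : ℝ) * (x i : ℝ)| ≤ (r : ℝ) * m * B := by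
        intro i _
        rw [abs_mul]
        have h4 : |(l i : ℝ)| ≤ (r : ℝ) * m := by
          have := hlb i
          exact_mod_cast this
        exact mul_le_mul h4 (hx i) (abs_nonneg _) (by positivity)
      refine (Finset.sum_le_sum h3).trans ?_
      rw [Finset.sum_const, Finset.card_univ, nsmul_eq_mul]
      apply le_of_eq
      rw [hk]
      ring
    have h5 : (∑ i, ((l i * x i : ℤ) : ℝ)) = ∑ i, (l i : ℝ) * (x i : ℝ) :=
      Finset.sum_congr rfl fun i _ => by push_cast; ring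
    calc |(∑ i, ((l i * x i : ℤ) : ℝ)) - (u : ℝ)|
        ≤ |(∑ i, ((l i * x i : ℤ) : ℝ))| + |(u : ℝ)| := abs_sub _ _
      _ = |(∑ i, (l i : ℝ) * (x i : ℝ))| + |(u : ℝ)| := by rw [h5]
      _ ≤ (k : ℝ) * r * m * B + B := add_le_add h2 hu
      _ = Y := by rw [hY]; ring
  -- real parts
  have hre : ∑ j ∈ range N, Real.cos (2 * Real.pi * (T j * u)) * P (T j) = 0 := by
    have h1 := congrArg Complex.re hzero
    rw [Complex.re_sum] at h1
    rw [Complex.zero_re] at h1
    rw [← h1]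
    refine Finset.sum_congr rfl fun j _ => ?_
    rw [Complex.re_mul_ofReal, E_re]
    congr 1
    rw [show 2 * Real.pi * (T j * ((-u : ℤ) : ℝ)) = -(2 * Real.pi * (T j * u)) by push_cast; ring,
      Real.cos_neg]
  have hm0 : (0 : ℝ) < m := by exact_mod_cast hm
  set q : ℝ := (1 / (2 * m * ε)) ^ (2 * r) with hq
  have hq0 : 0 ≤ q := by positivity
  set W : ℝ := ∏ _i : ι, ((m : ℝ) ^ 2) ^ r with hW
  have hWpos : 0 < W := by positivity
  have hP0 : ∀ t, 0 ≤ P t := fun t => Finset.prod_nonneg fun i _ => by positivity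
  have hPW : ∀ t, P t ≤ W := by
    intro t
    refine Finset.prod_le_prod (fun i _ => by positivity) fun i _ => ?_
    have := D_norm_le m (t * x i)
    gcongr
  have hPq : ∀ t, 1 / (8 * B) ≤ |t| → |t| ≤ 1 / 2 → P t ≤ q * W := by
    intro t h1 h2
    obtain ⟨i, hi⟩ := h t h1 h2
    have h3 := D_norm_le' m (t * x i) hε hi
    have h4 : (‖D m (t * x i)‖ ^ 2) ^ r ≤ q * ((m : ℝ) ^ 2) ^ r := by
      have h5 : q * ((m : ℝ) ^ 2) ^ r = ((1 / (2 * ε)) ^ 2) ^ r := by
        rw [hq, pow_mul, ← mul_pow, ← mul_pow]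
        congr 2
        field_simp
      rw [h5]
      gcongr
    have h6 : P t = (‖D m (t * x i)‖ ^ 2) ^ r * ∏ i' ∈ univ.erase i, (‖D m (t * x i')‖ ^ 2) ^ r := by
      rw [hP]; simp only
      rw [Finset.mul_prod_erase univ (fun i' => (‖D m (t * x i')‖ ^ 2) ^ r) (Finset.mem_univ i)]
    have h7 : W = ((m : ℝ) ^ 2) ^ r * ∏ i' ∈ univ.erase i, ((m : ℝ) ^ 2) ^ r := by
      rw [hW]
      rw [Finset.mul_prod_erase univ (fun _ => ((m : ℝ) ^ 2) ^ r) (Finset.mem_univ i)]
    rw [h6, h7, ← mul_assoc]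
    refine mul_le_mul h4 ?_ (Finset.prod_nonneg fun i _ => by positivity) (by positivity)
    refine Finset.prod_le_prod (fun i _ => by positivity) fun i' _ => ?_
    have := D_norm_le m (t * x i')
    gcongr
  -- lower bounds for the terms
  have hterm : ∀ j ∈ range N, -(q * W) ≤ Real.cos (2 * Real.pi * (T j * u)) * P (T j) := by
    intro j hj
    by_cases hlt : |T j| < 1 / (8 * B)
    · have h1 : 0 ≤ Real.cos (2 * Real.pi * (T j * u)) := by
        apply Real.cos_nonneg_of_mem_Icc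
        have h2 : |2 * Real.pi * (T j * u)| ≤ Real.pi / 2 := by
          rw [abs_mul, abs_of_pos (by positivity : (0 : ℝ) < 2 * Real.pi), abs_mul]
          have h3 : |T j| * |(u : ℝ)| ≤ 1 / (8 * B) * B :=
            mul_le_mul hlt.le hu (abs_nonneg _) (by positivity)
          have h4 : 1 / (8 * B) * B = 1 / 8 := by field_simp
          rw [h4] at h3
          nlinarith [Real.pi_pos]
        exact Set.mem_Icc.mpr ⟨by linarith [(abs_le.mp h2).1], (abs_le.mp h2).2⟩
      have h2 := mul_nonneg h1 (hP0 (T j))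
      have h3 : 0 ≤ q * W := by positivity
      linarith
    · push Not at hlt
      have h1 := hPq (T j) hlt (hTabs j hj)
      have h2 : -1 ≤ Real.cos (2 * Real.pi * (T j * u)) := Real.neg_one_le_cos _
      have h3 := hP0 (T j)
      nlinarith
  have hTs : T s = 0 := by rw [hT]; simp
  have hs0 : Real.cos (2 * Real.pi * (T s * u)) * P (T s) = W := by
    rw [hTs]
    simp only [hP, hW, zero_mul, mul_zero, Real.cos_zero, one_mul]
    refine Finset.prod_congr rfl fun i _ => ?_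
    rw [D_zero]
    simp
  have hsum : W + q * W ≤ ∑ j ∈ range N, (Real.cos (2 * Real.pi * (T j * u)) * P (T j) + q * W) := by
    have h9 := Finset.single_le_sum
      (f := fun j => Real.cos (2 * Real.pi * (T j * u)) * P (T j) + q * W)
      (fun j hj => by linarith [hterm j hj]) (Finset.mem_range.mpr hsN)
    rw [hs0] at h9
    exact h9
  rw [Finset.sum_add_distrib, hre, zero_add, Finset.sum_const, Finset.card_range, nsmul_eq_mul] at hsum
  have h8 : (N : ℝ) * q < 1 := by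
    refine lt_of_le_of_lt ?_ hsmall
    exact mul_le_mul_of_nonneg_right hNY' hq0
  nlinarith [mul_lt_mul_of_pos_right h8 hWpos, mul_nonneg hq0 hWpos.le]

end Pool.Agent.Y350.Z2

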